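import Pool.Agent.MP_80da8f_an.Main

open MeasureTheory Filter Topology Pool.Agent.MP_80da8f_an

namespace Pool.Agent.Results.MP_80da8f_an.Gap

/-- Gap theorem: if the pressure function of the geometric potential of an area-preserving `C²`
Anosov diffeomorphism of the torus has an asymptote through the origin at `σ ∞`, then it approaches
it either exponentially fast or more slowly than every power of `t`. -/
theorem result (f : T2 → T2) (F : E2 ≃ E2) (Eu Es : T2 → Submodule ℝ E2)
    (hA : IsAnosov f F Eu Es) (hvol : MeasurePreserving f volume volume)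
    (P : ℝ → ℝ) (hP : ∀ t : ℝ, pressure f (fun p => t * geomPot F Eu p) = (P t : EReal))
    (σ : ℝ) (hσ : σ = 1 ∨ σ = -1) (a : ℝ)
    (ha : Tendsto (fun t : ℝ => P (σ * t) - a * t) atTop (𝓝 0)) :
    (∃ δ : ℝ, 0 < δ ∧ ∀ᶠ t : ℝ in atTop, P (σ * t) - a * t ≤ Real.exp (-δ * t)) ∨
      (∀ ε : ℝ, 0 < ε → ∀ᶠ t : ℝ in atTop, t ^ (-ε) ≤ P (σ * t) - a * t) :=
  gap_main hA hvol P hP σ hσ a ha

end Pool.Agent.Results.MP_80da8f_an.Gap
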