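import Pool.Agent.MP_80da8f_an.Main

open MeasureTheory Filter Topology Pool.Agent.MP_80da8f_an

namespace Pool.Agent.Results.MP_80da8f_an.Hyperbola

/-- For every `h > 0` the hyperbola branch `H t = h / 4 * (√(16 + 9 t²) - 5 t)` satisfies all the
conditions of the question with `h` in place of the entropy, approaches both asymptotes at the rate
`1 / |t|`, and is not the pressure function of the geometric potential of any area-preserving `C²`
Anosov diffeomorphism of the torus. -/
theorem result (h : ℝ) (hh : 0 < h) (H : ℝ → ℝ)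
    (hH : H = fun t => h / 4 * (Real.sqrt (16 + 9 * t ^ 2) - 5 * t)) :
    (StrictConvexOn ℝ Set.univ H ∧ AnalyticOnNhd ℝ H Set.univ ∧ H 0 = h ∧ H 1 = 0 ∧
      deriv H 0 < -h ∧ -h < deriv H 1 ∧ deriv H 1 < 0 ∧
      Tendsto (fun t => H t - (-(h / 2) * t + 0)) atTop (𝓝 0) ∧
      Tendsto (fun t => H t - (-(2 * h) * t + 0)) atBot (𝓝 0) ∧
      Tendsto (fun t => t * (H t - (-(h / 2) * t + 0))) atTop (𝓝 (2 * h / 3)) ∧
      Tendsto (fun t => -t * (H t - (-(2 * h) * t + 0))) atBot (𝓝 (2 * h / 3))) ∧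
    ∀ (f : T2 → T2) (F : E2 ≃ E2) (Eu Es : T2 → Submodule ℝ E2), IsAnosov f F Eu Es →
      MeasurePreserving f volume volume →
      ¬ ∀ t : ℝ, pressure f (fun p => t * geomPot F Eu p) = (H t : EReal) := by
  have hH' : H = hyperb h := hH
  obtain ⟨a1, a2, a3, a4, a5, a6, a7, a8, a9, a10, a11⟩ := sHyp h hh
  rw [hH']
  refine ⟨⟨a1, a2, a3, a4, a5, a6, a7, by simpa using a8, by simpa using a9, by simpa using a10,
    by simpa using a11.neg⟩, fun f F Eu Es hA hvol hP => ?_⟩
  have := gap_main hA hvol (hyperb h) hP 1 (Or.inl rfl) (-(h / 2)) (by simpa using a8)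
  simp only [one_mul] at this
  exact asm_hyp (g := fun t => hyperb h t - -(h / 2) * t) (by positivity) a10 this

end Pool.Agent.Results.MP_80da8f_an.Hyperbola
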