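import Pool.Agent.MP_80da8f_an.QS

open MeasureTheory Filter Topology Pool.Agent.MP_80da8f_an

namespace Pool.Agent.Results.MP_80da8f_an.Perron

/-- If the pressure function of the geometric potential of an area-preserving `C³` Anosov
diffeomorphism of the torus has the asymptote `a s + b` at `σ ∞` and `b < -a`, then `exp b` is the
spectral radius of a matrix with entries in `ℕ` and the approach is exponential, or the approach is
not faster than a stretched exponential of exponent `b / (-a)` along a sequence of scales. -/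
theorem result (f : T2 → T2) (F : E2 ≃ E2) (Eu Es : T2 → Submodule ℝ E2)
    (hA : IsAnosov f F Eu Es) (h3 : ContDiff ℝ 3 F) (hvol : MeasurePreserving f volume volume)
    (P : ℝ → ℝ) (hP : ∀ t : ℝ, pressure f (fun p => t * geomPot F Eu p) = (P t : EReal))
    (σ : ℝ) (hσ : σ = 1 ∨ σ = -1) (a b : ℝ)
    (ha : Tendsto (fun t : ℝ => P (σ * t) - a * (σ * t)) atTop (𝓝 b)) (hb : b < -a) :
    ((∃ (n : ℕ) (M : Matrix (Fin n) (Fin n) ℕ),
      spectralRadius ℂ (M.map (fun k : ℕ => (k : ℂ))) = ENNReal.ofReal (Real.exp b)) ∧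
      ∃ δ : ℝ, 0 < δ ∧ ∀ᶠ t : ℝ in atTop, P (σ * t) - a * (σ * t) - b ≤ Real.exp (-δ * t)) ∨
    ∀ θ : ℝ, b < θ * -a → ∃ᶠ T : ℝ in atTop, ∀ t : ℝ, 0 < t →
      Real.exp (-(T ^ θ * (1 + t / T))) ≤ P (σ * t) - a * (σ * t) - b :=
  perron_main hA h3 hvol P hP σ hσ a b ha hb

end Pool.Agent.Results.MP_80da8f_an.Perron
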